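import Pool.Agent.MP_887f27_pr.H69.Spec

/-! Counting trifurcations of a set of vertices of the tree. -/

namespace Pool.Agent.MP_887f27_pr.H96

open Pool.Agent.MP_887f27_pr.H69 Set
open scoped ENNReal Classical

lemma sz_eq (U : Set V) : sz U = (U.encard : ℝ≥0∞) := by
  rw [sz, ← ENNReal.tsum_set_one]
  exact (tsum_subtype U (fun _ => (1 : ℝ≥0∞))).symm

/-- a finite set together with its neighbours -/
noncomputable def nb (W : Finset V) : Finset V :=
  W ∪ Finset.univ.biUnion fun d : Dir => W.image (· * g d)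

lemma subset_nb (W : Finset V) : W ⊆ nb W := Finset.subset_union_left

lemma mem_nb {W : Finset V} {u : V} {d : Dir} (h : u * g d ∈ W) : u ∈ nb W := by
  refine Finset.mem_union_right _ (Finset.mem_biUnion.2 ⟨rev d, Finset.mem_univ _, ?_⟩)
  exact Finset.mem_image.2 ⟨_, h, mul_g_rev u d⟩

lemma card_nb (W : Finset V) : (nb W).card ≤ 5 * W.card := by
  have h1 := Finset.card_union_le W (Finset.univ.biUnion fun d : Dir => W.image (· * g d))
  have h2 : (Finset.univ.biUnion fun d : Dir => W.image (· * g d)).card ≤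
      ∑ d : Dir, (W.image (· * g d)).card := Finset.card_biUnion_le
  have h3 : ∑ d : Dir, (W.image (· * g d)).card ≤ ∑ _d : Dir, W.card :=
    Finset.sum_le_sum fun d _ => Finset.card_image_le
  have h4 : ∑ _d : Dir, W.card = 4 * W.card := by simp
  unfold nb
  omega

lemma card_nb_iter (W : Finset V) : ∀ r, (nb^[r] W).card ≤ 5 ^ r * W.card
  | 0 => by simp
  | r + 1 => by
    rw [Function.iterate_succ_apply', pow_succ]
    have := card_nb (nb^[r] W)
    have := card_nb_iter W r
    nlinarith

lemma subset_nb_iter (W : Finset V) : ∀ r, W ⊆ nb^[r] W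
  | 0 => by simp
  | r + 1 => by
    rw [Function.iterate_succ_apply']
    exact (subset_nb_iter W r).trans (subset_nb _)

lemma path_of_desc (W : Finset V) {l r : ℕ} {e e' : V × Dir} (h : Desc r e e')
    (hp : Path (W : Set V) (l + 1) e'.1 e'.2) :
    Path ((nb^[r] W : Finset V) : Set V) (l + 1) e.1 e.2 := by
  induction h with
  | refl r e => exact hp.mono_set (Finset.coe_subset.2 (subset_nb_iter W r))
  | @step r v d d' e h1 _ ih =>
    have h2 := ih hp
    rw [Function.iterate_succ_apply']
    exact ⟨mem_nb h2.1, d', h1, h2.pred.mono_set (Finset.coe_subset.2 (subset_nb _))⟩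

/-- pruning of the leaves -/
noncomputable def pr (W : Finset V) : ℕ → Finset V
  | 0 => W
  | j + 1 => (pr W j).filter fun u => ∃ a b, a ≠ b ∧ u * g a ∈ pr W j ∧ u * g b ∈ pr W j

lemma nbr_of (W : Finset V) (j : ℕ)
    (H : ∀ u ∈ W, ∀ a b, a ≠ b → Path (W : Set V) j u a → Path (W : Set V) j u b → u ∈ pr W j)
    {u : V} (hu : u ∈ W) {a b : Dir} (hab : a ≠ b) (ha : Path (W : Set V) (j + 1) u a)
    (hb : Path (W : Set V) (j + 1) u b) : u * g a ∈ pr W j := by
  obtain ⟨hw, d', hd', hp⟩ := ha
  refine H _ hw d' (rev a) hd' hp ?_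
  cases j with
  | zero => trivial
  | succ i =>
    refine ⟨by simpa using hu, b, by simpa using hab.symm, ?_⟩
    rw [mul_g_rev]
    exact hb.anti (by omega)

lemma mem_pr (W : Finset V) : ∀ j, ∀ u ∈ W, ∀ a b, a ≠ b → Path (W : Set V) j u a →
    Path (W : Set V) j u b → u ∈ pr W j
  | 0, _, hu, _, _, _, _, _ => hu
  | j + 1, u, hu, a, b, hab, ha, hb =>
    Finset.mem_filter.2 ⟨mem_pr W j u hu a b hab ha.pred hb.pred, a, b, hab,
      nbr_of W j (mem_pr W j) hu hab ha hb, nbr_of W j (mem_pr W j) hu hab.symm hb ha⟩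

/-- the sum of the degrees in a finite subforest -/
lemma forest (P : Finset V) :
    ∑ u ∈ P, (Finset.univ.filter fun d : Dir => u * g d ∈ P).card ≤ 2 * P.card := by
  have h1 : ∑ u ∈ P, (Finset.univ.filter fun d : Dir => u * g d ∈ P).card =
      ((P ×ˢ (Finset.univ : Finset Dir)).filter fun p => p.1 * g p.2 ∈ P).card := by
    simp only [Finset.card_filter]
    rw [Finset.sum_product]
  have h2 : (P ×ˢ (Finset.univ : Finset Bool)).card = 2 * P.card := by simp [mul_comm]
  rw [h1, ← h2]
  refine Finset.card_le_card_of_injOn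
    (fun p => if nrm (p.1 * g p.2) + 1 = nrm p.1 then (p.1, true) else (p.1 * g p.2, false))
    ?_ ?_
  · intro p hp
    simp only [Finset.coe_filter, Finset.mem_product, Finset.mem_univ, and_true,
      mem_ofPred_eq] at hp
    by_cases h : nrm (p.1 * g p.2) + 1 = nrm p.1 <;> simp [h, hp.1, hp.2]
  · rintro ⟨u, d⟩ _ ⟨u', d'⟩ _ h
    by_cases a : nrm (u * g d) + 1 = nrm u <;> by_cases a' : nrm (u' * g d') + 1 = nrm u' <;>
      simp only [a, a', if_true, if_false, Prod.mk.injEq, and_true, Bool.true_eq_false,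
        Bool.false_eq_true, and_false] at h
    · subst h
      rw [inward_unique a a']
    · have b := (nrm_step u d).resolve_left a
      have b' := (nrm_step u' d').resolve_left a'
      have e : rev d = rev d' := by
        refine inward_unique (v := u * g d) (by rw [mul_g_rev]; omega) ?_
        rw [h, mul_g_rev]
        omega
      rw [rev_inj] at e
      subst e
      rw [mul_right_cancel h]

lemma step_bound (W T : Finset V) (j : ℕ) (hT : ∀ y ∈ T, y ∈ pr W j ∧
    Three fun d => y * g d ∈ pr W j) : T.card + 2 * (pr W (j + 1)).card ≤ 2 * (pr W j).card := by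
  refine le_trans ?_ (forest (pr W j))
  have hs : pr W (j + 1) ⊆ pr W j := Finset.filter_subset _ _
  have hT' : T ⊆ pr W j := fun y hy => (hT y hy).1
  have e1 : T.card = ∑ u ∈ pr W j, if u ∈ T then 1 else 0 := by
    rw [← Finset.card_filter, Finset.filter_mem_eq_inter, Finset.inter_eq_right.2 hT']
  have e2 : (pr W (j + 1)).card = ∑ u ∈ pr W j, if u ∈ pr W (j + 1) then 1 else 0 := by
    rw [← Finset.card_filter, Finset.filter_mem_eq_inter, Finset.inter_eq_right.2 hs]
  rw [e1, e2, Finset.mul_sum, ← Finset.sum_add_distrib]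
  refine Finset.sum_le_sum fun u _ => ?_
  by_cases h1 : u ∈ T
  · have := three_iff_card.1 (hT u h1).2
    split_ifs <;> omega
  · by_cases h2 : u ∈ pr W (j + 1)
    · obtain ⟨a, b, hab, ha, hb⟩ := (Finset.mem_filter.1 h2).2
      have : 1 < (Finset.univ.filter fun d : Dir => u * g d ∈ pr W j).card :=
        Finset.one_lt_card.2 ⟨a, by simpa using ha, b, by simpa using hb, hab⟩
      simp only [h1, h2, if_true, if_false]
      omega
    · simp [h1, h2]

lemma count_fin (W T : Finset V) (l : ℕ)
    (hT : ∀ y ∈ T, y ∈ W ∧ Three fun d => Path (W : Set V) l y d) : l * T.card ≤ 2 * W.card := by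
  have key : ∀ j, j ≤ l → j * T.card + 2 * (pr W j).card ≤ 2 * W.card := by
    intro j
    induction j with
    | zero => intro _; simp [pr]
    | succ j ih =>
      intro hj
      have h1 := ih (by omega)
      have h2 := step_bound W T j fun y hy => by
        obtain ⟨hw, a, b, c, hab, hac, hbc, ha, hb, hc⟩ := hT y hy
        have ha' := ha.anti hj
        have hb' := hb.anti hj
        have hc' := hc.anti hj
        exact ⟨mem_pr W j y hw a b hab ha'.pred hb'.pred, a, b, c, hab, hac, hbc,
          nbr_of W j (mem_pr W j) hw hab ha' hb', nbr_of W j (mem_pr W j) hw hab.symm hb' ha',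
          nbr_of W j (mem_pr W j) hw hac.symm hc' ha'⟩
      rw [add_mul]
      omega
  have := key l le_rfl
  omega

theorem count : CountStmt := by
  intro r l U
  rcases l with _ | l
  · simp
  by_cases hU : U.Finite
  · lift U to Finset V using hU
    set T := {y | Three fun d => ∃ e, Desc r (y, d) e ∧ Path (U : Set V) (l + 1) e.1 e.2} with hT
    have h1 : ∀ y ∈ T, y ∈ nb^[r + 1] U ∧
        Three fun d => Path ((nb^[r + 1] U : Finset V) : Set V) (l + 1) y d := by
      intro y hy
      have h2 : Three fun d => Path ((nb^[r] U : Finset V) : Set V) (l + 1) y d :=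
        Three.mono hy fun d ⟨e, he, hp⟩ => path_of_desc U he hp
      rw [Function.iterate_succ_apply']
      refine ⟨?_, h2.mono fun d hd => hd.mono_set (Finset.coe_subset.2 (subset_nb _))⟩
      obtain ⟨a, -, -, -, -, -, ha, -⟩ := h2
      exact mem_nb ha.1
    have hf : T.Finite := (nb^[r + 1] U).finite_toSet.subset fun y hy => (h1 y hy).1
    have h3 := count_fin (nb^[r + 1] U) hf.toFinset (l + 1) fun y hy => h1 y (by simpa using hy)
    have h4 := card_nb_iter U (r + 1)
    have h5 : (l + 1) * hf.toFinset.card ≤ 2 * 5 ^ (r + 1) * U.card := by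
      rw [mul_assoc]
      omega
    rw [sz_eq, sz_eq, hf.encard_eq_coe_toFinset_card, encard_coe_eq_coe_finsetCard]
    exact_mod_cast h5
  · rw [sz_eq U, Set.Infinite.encard_eq hU]
    simp

end Pool.Agent.MP_887f27_pr.H96
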