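import Pool.Agent.MP_887f27_pr.H69.Spec

/-! Boundary of the pruned sets of an invariant random configuration. -/

namespace Pool.Agent.MP_887f27_pr.H96

open Pool.Agent.MP_887f27_pr.H69 Set MeasureTheory
open scoped ENNReal Classical

/-- indicator of a proposition -/
noncomputable def ind (p : Prop) : ℝ := if p then 1 else 0

lemma ind_nonneg (p : Prop) : 0 ≤ ind p := by unfold ind; split_ifs <;> norm_num

lemma ind_le_one (p : Prop) : ind p ≤ 1 := by unfold ind; split_ifs <;> norm_num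

lemma ind_pos {p : Prop} (h : p) : ind p = 1 := if_pos h

lemma ind_neg {p : Prop} (h : ¬ p) : ind p = 0 := if_neg h

lemma sum_ind_le_four (P : Dir → Prop) : ∑ d, ind (P d) ≤ 4 := by
  have : ∑ d, ind (P d) ≤ ∑ _d : Dir, (1 : ℝ) := Finset.sum_le_sum fun d _ => ind_le_one _
  simpa using this.trans_eq (by simp)

lemma sum_ind_nonneg (P : Dir → Prop) : 0 ≤ ∑ d, ind (P d) :=
  Finset.sum_nonneg fun _ _ => ind_nonneg _

lemma two_le_sum_ind {P : Dir → Prop} {a b : Dir} (hab : a ≠ b) (ha : P a) (hb : P b) :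
    2 ≤ ∑ d, ind (P d) := by
  have h := Finset.sum_le_sum_of_subset_of_nonneg (f := fun d => ind (P d))
    (Finset.subset_univ {a, b}) fun _ _ _ => ind_nonneg _
  rw [Finset.sum_pair hab, ind_pos ha, ind_pos hb] at h
  linarith

lemma sum_ind_le_two {P : Dir → Prop} {a b : Dir} (hab : a ≠ b) (ha : ¬ P a) (hb : ¬ P b) :
    ∑ d, ind (P d) ≤ 2 := by
  have h1 := two_le_sum_ind (P := fun d => ¬ P d) hab ha hb
  have h2 : ∑ d, ind (P d) + ∑ d, ind (¬ P d) = ∑ _d : Dir, (1 : ℝ) := by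
    rw [← Finset.sum_add_distrib]
    refine Finset.sum_congr rfl fun d _ => ?_
    by_cases h : P d <;> simp [ind, h]
  have h3 : ∑ _d : Dir, (1 : ℝ) = 4 := by simp
  linarith

lemma sum_ind_zero {P : Dir → Prop} (h : ∀ d, ¬ P d) : ∑ d, ind (P d) = 0 :=
  Finset.sum_eq_zero fun d _ => ind_neg (h d)

section

variable (lam : Measure Cfg) [IsProbabilityMeasure lam]

lemma ind_eq (P : Cfg → Prop) : (fun x => ind (P x)) = {x | P x}.indicator 1 := by
  funext x
  by_cases h : P x <;> simp [ind, h]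

lemma real_eq {P : Cfg → Prop} (h : MeasurableSet {x | P x}) :
    lam.real {x | P x} = ∫ x, ind (P x) ∂lam := by
  rw [ind_eq, integral_indicator_one h]

lemma int_ind {P : Cfg → Prop} (h : MeasurableSet {x | P x}) :
    Integrable (fun x => ind (P x)) lam := by
  rw [ind_eq]
  exact (integrable_const 1).indicator h

lemma le_of_pt {P Q : Dir → Cfg → Prop} {R : Cfg → Prop} (c : ℝ)
    (hP : ∀ d, MeasurableSet {x | P d x}) (hQ : ∀ d, MeasurableSet {x | Q d x})
    (hR : MeasurableSet {x | R x})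
    (h : ∀ x, ∑ d, ind (P d x) ≤ ∑ d, ind (Q d x) + c * ind (R x)) :
    ∑ d, lam.real {x | P d x} ≤ ∑ d, lam.real {x | Q d x} + c * lam.real {x | R x} := by
  have iP := integrable_finsetSum Finset.univ fun d _ => int_ind lam (hP d)
  have iQ := integrable_finsetSum Finset.univ fun d _ => int_ind lam (hQ d)
  have iR := (int_ind lam hR).const_mul c
  simp only [fun d => real_eq lam (hP d), fun d => real_eq lam (hQ d), real_eq lam hR]
  rw [← integral_finsetSum _ fun d _ => int_ind lam (hP d),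
    ← integral_finsetSum _ fun d _ => int_ind lam (hQ d), ← integral_const_mul,
    ← integral_add iQ iR]
  exact integral_mono iP (iQ.add iR) h

lemma real_split {P Q : Cfg → Prop} (hQ : MeasurableSet {x | Q x}) :
    lam.real {x | P x} = lam.real {x | P x ∧ Q x} + lam.real {x | P x ∧ ¬ Q x} :=
  (measureReal_inter_add_sdiff (s := {x | P x}) hQ).symm

variable {lam}

/-- mass transport along one edge -/
lemma transport (hI : Inv lam) {X Y : V → Cfg → Prop} (hX : ∀ v, MeasurableSet {x | X v x})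
    (hY : ∀ v, MeasurableSet {x | Y v x}) (eX : ∀ u x y, X y (sh u x) ↔ X (u * y) x)
    (eY : ∀ u x y, Y y (sh u x) ↔ Y (u * y) x) :
    ∑ d, lam.real {x | X 1 x ∧ Y (g d) x} = ∑ d, lam.real {x | Y 1 x ∧ X (g d) x} := by
  rw [← sum_rev fun d => lam.real {x | Y 1 x ∧ X (g d) x}]
  refine Finset.sum_congr rfl fun d _ => ?_
  have hm : MeasurableSet {x | Y 1 x ∧ X (g (rev d)) x} := (hY 1).inter (hX _)
  rw [← (hI (g d)).measureReal_preimage hm.nullMeasurableSet]
  congr 1
  ext x
  simp only [mem_ofPred_eq, mem_preimage, eX, eY, mul_one, g_rev, mul_inv_cancel]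
  exact and_comm

end

/-- membership in the pruned set -/
def B (s : Bool) (j : ℕ) (v : V) (x : Cfg) : Prop := v ∈ Core (sgn s x) j

lemma msB (s : Bool) (j : ℕ) (v : V) : MeasurableSet {x | B s j v x} :=
  (loc_core (loc_sgn s) j v).measurableSet

lemma eqB (s : Bool) (j : ℕ) (u : V) (x : Cfg) (y : V) : B s j y (sh u x) ↔ B s j (u * y) x :=
  core_equiv (mem_sgn_sh s u x) j y

lemma B.pred {s : Bool} {j : ℕ} {v : V} {x : Cfg} (h : B s (j + 1) v x) : B s j v x := h.1

/-- expected boundary of the pruned set -/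
noncomputable def bb (lam : Measure Cfg) (s : Bool) (j : ℕ) : ℝ :=
  ∑ d, lam.real {x | B s j 1 x ∧ ¬ B s j (g d) x}

lemma fw_of_not_core {K K' : Set V} (h : ∀ v, v ∉ K → v ∈ K') :
    ∀ j u d, u ∈ Core K (j - 1) → u * g d ∉ Core K j → Fw K' j u d
  | 0, _, _, _, hw => h _ hw
  | j + 1, u, d, hu, hw => by
    by_cases h1 : u * g d ∈ Core K j
    · have h2 : ¬ Three fun d' => u * g d * g d' ∈ Core K j := fun t => hw ⟨h1, t⟩
      obtain ⟨a, b, hab, ha, hb⟩ := not_three h2
      have hu' : u * g d * g (rev d) ∈ Core K j := by simpa using hu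
      have h3 : u * g d ∈ Core K (j - 1) := core_anti K (Nat.sub_le j 1) h1
      exact Or.inr ⟨a, b, hab, fun e => ha (e ▸ hu'), fun e => hb (e ▸ hu'),
        fw_of_not_core h j _ a h3 ha, fw_of_not_core h j _ b h3 hb⟩
    · exact (fw_of_not_core h j u d (core_anti K (by omega) hu) h1).succ

lemma two_out {s : Bool} {j : ℕ} {x : Cfg} (h : B s j 1 x ∧ ¬ B s (j + 1) 1 x) :
    ∃ a b, a ≠ b ∧ ¬ B s j (g a) x ∧ ¬ B s j (g b) x := by
  have h2 : ¬ Three fun d => 1 * g d ∈ Core (sgn s x) j := fun t => h.2 ⟨h.1, t⟩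
  simpa only [one_mul, B] using not_three h2

lemma two_in {s : Bool} {j : ℕ} {x : Cfg} (h : B s j 1 x) (hd : ¬ Dfc (sgn (!s) x) (j + 1) 1) :
    ∃ a b, a ≠ b ∧ B s (j + 1) (g a) x ∧ B s (j + 1) (g b) x := by
  have hc : ∀ v, v ∉ sgn s x → v ∈ sgn (!s) x := by
    intro v hv
    have h0 : ¬ x v = s := hv
    change x v = !s
    revert h0
    cases x v <;> cases s <;> simp
  have h1 : (1 : V) ∉ sgn (!s) x := by
    have : x 1 = s := core_subset _ j h
    simp [sgn, this]
  obtain ⟨a, b, hab, ha, hb⟩ := not_three fun t => hd ⟨h1, t⟩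
  refine ⟨a, b, hab, ?_, ?_⟩
  · by_contra hn
    exact ha (fw_of_not_core hc (j + 1) 1 a h (by rwa [one_mul]))
  · by_contra hn
    exact hb (fw_of_not_core hc (j + 1) 1 b h (by rwa [one_mul]))

section

variable {lam : Measure Cfg} [IsProbabilityMeasure lam]

lemma bd_eq (hI : Inv lam) (s : Bool) : bd lam = 2 * bb lam s 0 := by
  have t := transport hI (X := fun v x => ¬ B s 0 v x) (Y := B s 0)
    (fun v => (msB s 0 v).compl) (msB s 0) (fun u x y => not_congr (eqB s 0 u x y)) (eqB s 0)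
  rw [two_mul, bb]
  nth_rewrite 2 [← t]
  rw [← Finset.sum_add_distrib, bd]
  refine Finset.sum_congr rfl fun d _ => ?_
  rw [real_split lam (msB s 0 1)]
  congr 2
  · ext x
    simp only [B, Core, sgn, mem_ofPred_eq]
    cases x (g d) <;> cases x 1 <;> cases s <;> simp
  · ext x
    simp only [B, Core, sgn, mem_ofPred_eq]
    cases x (g d) <;> cases x 1 <;> cases s <;> simp

lemma bb_succ (hI : Inv lam) (s : Bool) (j : ℕ) :
    bb lam s (j + 1) + ∑ d, lam.real {x | (B s j 1 x ∧ ¬ B s (j + 1) 1 x) ∧ ¬ B s j (g d) x} =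
      bb lam s j + ∑ d, lam.real {x | (B s j 1 x ∧ ¬ B s (j + 1) 1 x) ∧ B s (j + 1) (g d) x} := by
  rw [transport hI (X := fun v x => B s j v x ∧ ¬ B s (j + 1) v x) (Y := B s (j + 1))
    (fun v => (msB s j v).inter (msB s (j + 1) v).compl) (msB s (j + 1))
    (fun u x y => and_congr (eqB s j u x y) (not_congr (eqB s (j + 1) u x y))) (eqB s (j + 1)),
    bb, bb, ← Finset.sum_add_distrib, ← Finset.sum_add_distrib]
  refine Finset.sum_congr rfl fun d _ => ?_
  rw [real_split lam (P := fun x => B s (j + 1) 1 x ∧ ¬ B s (j + 1) (g d) x) (msB s j (g d)),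
    real_split lam (P := fun x => B s j 1 x ∧ ¬ B s j (g d) x) (msB s (j + 1) 1)]
  have e1 : {x | (B s (j + 1) 1 x ∧ ¬ B s (j + 1) (g d) x) ∧ B s j (g d) x} =
      {x | B s (j + 1) 1 x ∧ B s j (g d) x ∧ ¬ B s (j + 1) (g d) x} := by
    ext x
    simp only [mem_ofPred_eq]
    tauto
  have e2 : {x | (B s (j + 1) 1 x ∧ ¬ B s (j + 1) (g d) x) ∧ ¬ B s j (g d) x} =
      {x | (B s j 1 x ∧ ¬ B s j (g d) x) ∧ B s (j + 1) 1 x} := by
    ext x
    simp only [mem_ofPred_eq]
    exact ⟨fun h => ⟨⟨h.1.1.pred, h.2⟩, h.1.1⟩, fun h => ⟨⟨h.2, fun a => h.1.2 a.pred⟩, h.1.2⟩⟩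
  have e3 : {x | (B s j 1 x ∧ ¬ B s (j + 1) 1 x) ∧ ¬ B s j (g d) x} =
      {x | (B s j 1 x ∧ ¬ B s j (g d) x) ∧ ¬ B s (j + 1) 1 x} := by
    ext x
    simp only [mem_ofPred_eq]
    tauto
  rw [e1, e2, e3]
  ring

lemma msD (s : Bool) (j : ℕ) : MeasurableSet {x | B s j 1 x ∧ ¬ B s (j + 1) 1 x} :=
  (msB s j 1).inter (msB s (j + 1) 1).compl

lemma bb_anti (hI : Inv lam) (s : Bool) (j : ℕ) : bb lam s (j + 1) ≤ bb lam s j := by
  have h1 := bb_succ hI s j
  have h2 := le_of_pt lam
    (P := fun d x => (B s j 1 x ∧ ¬ B s (j + 1) 1 x) ∧ B s (j + 1) (g d) x)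
    (Q := fun d x => (B s j 1 x ∧ ¬ B s (j + 1) 1 x) ∧ ¬ B s j (g d) x) (R := fun _ => True) 0
    (fun d => (msD s j).inter (msB s (j + 1) (g d)))
    (fun d => (msD s j).inter (msB s j (g d)).compl)
    (by simp) fun x => by
      by_cases h : B s j 1 x ∧ ¬ B s (j + 1) 1 x
      · obtain ⟨a, b, hab, ha, hb⟩ := two_out h
        have i1 := sum_ind_le_two
          (P := fun d => (B s j 1 x ∧ ¬ B s (j + 1) 1 x) ∧ B s (j + 1) (g d) x) hab
          (fun t => ha t.2.pred) (fun t => hb t.2.pred)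
        have i2 := two_le_sum_ind
          (P := fun d => (B s j 1 x ∧ ¬ B s (j + 1) 1 x) ∧ ¬ B s j (g d) x) hab ⟨h, ha⟩ ⟨h, hb⟩
        linarith
      · rw [sum_ind_zero fun d t => h t.1, sum_ind_zero fun d t => h t.1]
        simp
  linarith

lemma bb_le_zero (hI : Inv lam) (s : Bool) : ∀ j, bb lam s j ≤ bb lam s 0
  | 0 => le_rfl
  | j + 1 => (bb_anti hI s j).trans (bb_le_zero hI s j)

lemma bb_lower (hI : Inv lam) (s : Bool) (j : ℕ) :
    bb lam s j ≤ bb lam s (j + 1) + 4 * lam.real {x | Dfc (sgn (!s) x) (j + 1) 1} := by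
  have h1 := bb_succ hI s j
  have h2 := le_of_pt lam
    (P := fun d x => (B s j 1 x ∧ ¬ B s (j + 1) 1 x) ∧ ¬ B s j (g d) x)
    (Q := fun d x => (B s j 1 x ∧ ¬ B s (j + 1) 1 x) ∧ B s (j + 1) (g d) x)
    (R := fun x => Dfc (sgn (!s) x) (j + 1) 1) 4
    (fun d => (msD s j).inter (msB s j (g d)).compl)
    (fun d => (msD s j).inter (msB s (j + 1) (g d)))
    (loc_dfc (loc_sgn _) _ _).measurableSet fun x => by
      by_cases hd : Dfc (sgn (!s) x) (j + 1) 1
      · have i1 := sum_ind_le_four fun d => (B s j 1 x ∧ ¬ B s (j + 1) 1 x) ∧ ¬ B s j (g d) x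
        have i2 := sum_ind_nonneg fun d => (B s j 1 x ∧ ¬ B s (j + 1) 1 x) ∧ B s (j + 1) (g d) x
        rw [ind_pos hd]
        linarith
      · rw [ind_neg hd]
        by_cases h : B s j 1 x ∧ ¬ B s (j + 1) 1 x
        · obtain ⟨a, b, hab, ha, hb⟩ := two_in h.1 hd
          have i1 := sum_ind_le_two
            (P := fun d => (B s j 1 x ∧ ¬ B s (j + 1) 1 x) ∧ ¬ B s j (g d) x) hab
            (fun t => t.2 ha.pred) (fun t => t.2 hb.pred)
          have i2 := two_le_sum_ind
            (P := fun d => (B s j 1 x ∧ ¬ B s (j + 1) 1 x) ∧ B s (j + 1) (g d) x) hab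
            ⟨h, ha⟩ ⟨h, hb⟩
          linarith
        · rw [sum_ind_zero fun d t => h t.1, sum_ind_zero fun d t => h t.1]
          simp
  linarith

lemma pruned_le (s : Bool) (j : ℕ) :
    2 * lam.real {x | B s j 1 x ∧ ¬ B s (j + 1) 1 x} ≤ bb lam s j := by
  have h2 := le_of_pt lam (P := fun _ _ => False) (Q := fun d x => B s j 1 x ∧ ¬ B s j (g d) x)
    (R := fun x => B s j 1 x ∧ ¬ B s (j + 1) 1 x) (-2) (by simp)
    (fun d => (msB s _ _).inter (msB s _ _).compl) (msD s j) fun x => by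
      rw [sum_ind_zero fun _ => not_false]
      by_cases h : B s j 1 x ∧ ¬ B s (j + 1) 1 x
      · obtain ⟨a, b, hab, ha, hb⟩ := two_out h
        have i2 := two_le_sum_ind (P := fun d => B s j 1 x ∧ ¬ B s j (g d) x) hab ⟨h.1, ha⟩
          ⟨h.1, hb⟩
        rw [ind_pos h]
        linarith
      · have i2 := sum_ind_nonneg fun d => B s j 1 x ∧ ¬ B s j (g d) x
        rw [ind_neg h]
        linarith
  simp only [ofPred_false, measureReal_empty, Finset.sum_const_zero] at h2
  unfold bb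
  linarith

lemma bb_le_four (s : Bool) (j : ℕ) : bb lam s j ≤ 4 * lam.real {x | B s j 1 x} := by
  have : bb lam s j ≤ ∑ _d : Dir, lam.real {x | B s j 1 x} :=
    Finset.sum_le_sum fun d _ => measureReal_mono fun x hx => hx.1
  simpa using this

end

theorem s1 : S1Stmt := by
  intro lam _ hI R
  have key : ∀ j, j ≤ R →
      bb lam false 0 ≤ bb lam false j + 4 * j * lam.real {x | Dfc (sgn true x) R 1} := by
    intro j
    induction j with
    | zero => intro _; simp
    | succ j ih =>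
      intro hj
      have h1 := ih (by omega)
      have h2 := bb_lower hI false j
      have h3 : lam.real {x | Dfc (sgn (!false) x) (j + 1) 1} ≤
          lam.real {x | Dfc (sgn true x) R 1} := measureReal_mono fun x hx => Dfc.mono hx hj
      push_cast
      linarith
  have h1 := key R le_rfl
  have h2 := bb_le_four (lam := lam) false R
  have h3 := bd_eq hI false
  change bd lam ≤ 8 * lam.real {x | B false R 1 x} + _
  linarith

theorem s2 : S2Stmt := by
  intro lam _ hI hE h0 hb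
  have hbd := bd_eq hI true
  have hc : ∀ j, lam.real {x | ¬ B true j 1 x} = 1 - lam.real {x | B true j 1 x} := fun j =>
    probReal_compl_eq_one_sub (msB true j 1)
  have step : ∀ j, lam.real {x | ¬ B true j 1 x} ≤ 1 / 2 →
      lam.real {x | ¬ B true j 1 x} ≤ 2 * bd lam := by
    intro j hj
    have h1 := hE {x | B true j 1 x} (loc_core (loc_sgn true) j 1)
    simp only [mem_ofPred_eq, eqB, mul_one] at h1
    have h2 := bb_le_zero hI true j
    have h3 : 0 ≤ lam.real {x | ¬ B true j 1 x} := measureReal_nonneg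
    rw [hc] at hj h3 ⊢
    unfold bb at h2 hbd
    nlinarith
  have half : ∀ j, lam.real {x | ¬ B true j 1 x} ≤ 1 / 2 := by
    intro j
    induction j with
    | zero =>
      refine le_trans (le_of_eq ?_) h0
      congr 1
      ext x
      simp [B, Core, sgn]
    | succ j ih =>
      have h1 := step j ih
      have h2 := pruned_le (lam := lam) true j
      have h3 := bb_le_zero hI true j
      have h4 := real_split lam (P := fun x => ¬ B true (j + 1) 1 x) (msB true j 1)
      have h5 : lam.real {x | ¬ B true (j + 1) 1 x ∧ B true j 1 x} ≤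
          lam.real {x | B true j 1 x ∧ ¬ B true (j + 1) 1 x} :=
        measureReal_mono fun x hx => ⟨hx.2, hx.1⟩
      have h6 : lam.real {x | ¬ B true (j + 1) 1 x ∧ ¬ B true j 1 x} ≤
          lam.real {x | ¬ B true j 1 x} := measureReal_mono fun x hx => hx.2
      linarith
  exact fun R => step R (half R)

end Pool.Agent.MP_887f27_pr.H96
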